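import Pool.Agent.Helper52.KP.StL

set_option autoImplicit false

namespace Pool.Agent.Helper94.KP

open MeasureTheory Filter Pool.Agent.Helper52.KP
open scoped ContDiff ComplexOrder Topology

noncomputable def q {p : ℕ} (A : Matrix (Fin p) (Fin p) ℂ) (x y : Fin p → ℂ) : ℂ :=
  ∑ j, ∑ k, A j k * x j * star (y k)

lemma hf_q {p : ℕ} (A : Matrix (Fin p) (Fin p) ℂ) (x : Fin p → ℂ) : hf A x = (q A x x).re := rfl

lemma q_swap {p : ℕ} (A : Matrix (Fin p) (Fin p) ℂ) (hA : A.IsHermitian) (x y : Fin p → ℂ) :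
    q A y x = star (q A x y) := by
  unfold q
  rw [star_sum, Finset.sum_comm]
  refine Finset.sum_congr rfl fun j _ => ?_
  rw [star_sum]
  refine Finset.sum_congr rfl fun k _ => ?_
  have h : star (A j k) = A k j := hA.apply k j
  rw [star_mul, star_mul, star_star, h]
  ring

lemma hf_sub {p : ℕ} (A : Matrix (Fin p) (Fin p) ℂ) (hA : A.IsHermitian) (x y : Fin p → ℂ) :
    hf A (fun j => x j - y j) = hf A x - 2 * (q A x y).re + hf A y := by
  have h1 : q A (fun j => x j - y j) (fun j => x j - y j) = q A x x - q A x y - q A y x + q A y y := by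
    unfold q
    simp only [← Finset.sum_sub_distrib, ← Finset.sum_add_distrib]
    refine Finset.sum_congr rfl fun j _ => Finset.sum_congr rfl fun k _ => ?_
    rw [star_sub]; ring
  rw [hf_q, h1, q_swap A hA x y, hf_q, hf_q]
  simp only [Complex.add_re, Complex.sub_re, Complex.star_def, Complex.conj_re]
  ring

section
variable {X : Type} [MeasurableSpace X] {μ : Measure X}

lemma int_mul {f g : X → ℂ} (hf : MemLp f 2 μ) (hg : MemLp g 2 μ) :
    Integrable (fun z => f z * star (g z)) μ := by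
  have hg' : MemLp (fun z => star (g z)) 2 μ := hg.star
  exact MemLp.integrable_mul hf hg'

lemma int_amul {a f g : X → ℂ} {C : ℝ} (ha : AEStronglyMeasurable a μ) (hC : ∀ᵐ z ∂μ, ‖a z‖ ≤ C)
    (hf : MemLp f 2 μ) (hg : MemLp g 2 μ) :
    Integrable (fun z => a z * f z * star (g z)) μ := by
  have h := (int_mul hf hg).bdd_mul ha hC
  refine h.congr (Eventually.of_forall fun z => ?_)
  simp only [mul_assoc]

lemma lim1 {a : ℕ → X → ℂ} {β : X → ℂ} {f : ℕ → X → ℂ} {w g : X → ℂ} {C : ℝ} {Ca : ℕ → ℝ} {b : ℝ}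
    (ha : ∀ i, AEStronglyMeasurable (a i) μ) (hCa : ∀ i, ∀ᵐ z ∂μ, ‖a i z‖ ≤ Ca i)
    (hβ : AEStronglyMeasurable β μ) (hC : ∀ᵐ z ∂μ, ‖β z‖ ≤ C)
    (hu : ∀ ε > 0, ∀ᶠ i in atTop, ∀ᵐ z ∂μ, ‖a i z - β z‖ ≤ ε)
    (hf : ∀ i, MemLp (f i) 2 μ) (hg : MemLp g 2 μ)
    (hb : ∀ i, ∫ z, ‖f i z‖ ^ 2 ∂μ ≤ b)
    (hw : ∀ φ : X → ℂ, MemLp φ 2 μ →
      Tendsto (fun i => ∫ z, f i z * φ z ∂μ) atTop (𝓝 (∫ z, w z * φ z ∂μ))) :
    Tendsto (fun i => ∫ z, a i z * f i z * star (g z) ∂μ) atTop
      (𝓝 (∫ z, β z * w z * star (g z) ∂μ)) := by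
  have hφ : MemLp (fun z => β z * star (g z)) 2 μ := by
    refine MemLp.of_le_mul (c := C) hg (hβ.mul hg.star.aestronglyMeasurable) ?_
    filter_upwards [hC] with z hz
    rw [norm_mul, norm_star]
    exact mul_le_mul_of_nonneg_right hz (norm_nonneg _)
  have h1 := hw _ hφ
  have h2 : Tendsto (fun i => ∫ z, (a i z - β z) * (f i z * star (g z)) ∂μ) atTop (𝓝 0) := by
    rw [Metric.tendsto_atTop]
    intro ε hε
    set M : ℝ := b + ∫ z, ‖g z‖ ^ 2 ∂μ with hM
    have hb0 : 0 ≤ b := le_trans (integral_nonneg fun z => by positivity) (hb 0)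
    have hM0 : 0 ≤ M := add_nonneg hb0 (integral_nonneg fun z => by positivity)
    have hev := hu (ε / (M + 1)) (by positivity)
    obtain ⟨N, hN⟩ := eventually_atTop.1 hev
    refine ⟨N, fun i hi => ?_⟩
    have hz := hN i hi
    rw [dist_zero_right]
    have hi1 : Integrable (fun z => ‖f i z‖ ^ 2) μ := (hf i).integrable_norm_pow (by norm_num)
    have hi2 : Integrable (fun z => ‖g z‖ ^ 2) μ := hg.integrable_norm_pow (by norm_num)
    have hle : ‖∫ z, (a i z - β z) * (f i z * star (g z)) ∂μ‖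
        ≤ ∫ z, (ε / (M + 1)) * ((‖f i z‖ ^ 2 + ‖g z‖ ^ 2) / 2) ∂μ := by
      refine norm_integral_le_of_norm_le ?_ ?_
      · exact ((hi1.add hi2).div_const 2).const_mul _
      · filter_upwards [hz] with z hz
        rw [norm_mul, norm_mul, norm_star]
        refine mul_le_mul hz ?_ (by positivity) (by positivity)
        nlinarith [sq_nonneg (‖f i z‖ - ‖g z‖)]
    refine lt_of_le_of_lt hle ?_
    rw [integral_const_mul, integral_div, integral_add hi1 hi2]
    have h3 : (∫ z, ‖f i z‖ ^ 2 ∂μ) + ∫ z, ‖g z‖ ^ 2 ∂μ ≤ M := by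
      rw [hM]; exact add_le_add (hb i) le_rfl
    have h4 : ε / (M + 1) * (((∫ z, ‖f i z‖ ^ 2 ∂μ) + ∫ z, ‖g z‖ ^ 2 ∂μ) / 2) ≤ ε / (M + 1) * (M / 2) := by
      apply mul_le_mul_of_nonneg_left _ (by positivity)
      linarith
    refine lt_of_le_of_lt h4 ?_
    rw [div_mul_eq_mul_div, div_lt_iff₀ (by positivity)]
    nlinarith
  have h3 := h2.add h1
  rw [zero_add] at h3
  have e1 : (∫ z, w z * (β z * star (g z)) ∂μ) = ∫ z, β z * w z * star (g z) ∂μ :=
    integral_congr_ae (Eventually.of_forall fun z => by ring_nf)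
  rw [e1] at h3
  refine h3.congr fun i => ?_
  have hi1 : Integrable (fun z => a i z * f i z * star (g z)) μ := int_amul (ha i) (hCa i) (hf i) hg
  have hi2 : Integrable (fun z => β z * f i z * star (g z)) μ := int_amul hβ hC (hf i) hg
  have hi2' : Integrable (fun z => f i z * (β z * star (g z))) μ :=
    hi2.congr (Eventually.of_forall fun z => by ring_nf)
  have hi3 : Integrable (fun z => (a i z - β z) * (f i z * star (g z))) μ :=
    (hi1.sub hi2).congr (Eventually.of_forall fun z => by simp only [Pi.sub_apply]; ring)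
  rw [← integral_add hi3 hi2']
  exact integral_congr_ae (Eventually.of_forall fun z => by ring_nf)

end

theorem hLSC : StLSC := by
  intro m p K hK v w A B hA hB hAc hBc hu hv hw hb hweak c hc
  obtain ⟨b, hb⟩ := hb
  have hKm : MeasurableSet K := hK.measurableSet
  set μ : Measure (Fin m → ℂ) := volume.restrict K with hμ
  have haeK : ∀ᵐ z ∂μ, z ∈ K := ae_restrict_mem hKm
  have hAb : ∀ i j k, ∃ C : ℝ, ∀ᵐ z ∂μ, ‖A i z j k‖ ≤ C := by
    intro i j k
    obtain ⟨C, hC⟩ := hK.exists_bound_of_continuousOn (hAc i j k)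
    exact ⟨C, haeK.mono fun z hz => hC z hz⟩
  have hBb : ∀ j k, ∃ C : ℝ, ∀ᵐ z ∂μ, ‖B z j k‖ ≤ C := by
    intro j k
    obtain ⟨C, hC⟩ := hK.exists_bound_of_continuousOn (hBc j k)
    exact ⟨C, haeK.mono fun z hz => hC z hz⟩
  have hAm : ∀ i j k, AEStronglyMeasurable (fun z => A i z j k) μ := fun i j k =>
    (hAc i j k).aestronglyMeasurable hKm
  have hBm : ∀ j k, AEStronglyMeasurable (fun z => B z j k) μ := fun j k =>
    (hBc j k).aestronglyMeasurable hKm
  have huu : ∀ j k, ∀ ε > 0, ∀ᶠ i in atTop, ∀ᵐ z ∂μ, ‖A i z j k - B z j k‖ ≤ ε := by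
    intro j k ε hε
    have := Metric.tendstoUniformlyOn_iff.1 (hu j k) ε hε
    filter_upwards [this] with i hi
    filter_upwards [haeK] with z hz
    have := hi z hz
    rw [dist_comm, dist_eq_norm] at this
    exact this.le
  choose CA hCA using hAb
  choose CB hCB using hBb
  -- integrability
  have hint : ∀ (i : ℕ) (x y : Fin p → (Fin m → ℂ) → ℂ), (∀ q, MemLp (x q) 2 μ) →
      (∀ q, MemLp (y q) 2 μ) → ∀ j k, Integrable (fun z => A i z j k * x j z * star (y k z)) μ :=
    fun i x y hx hy j k => int_amul (hAm i j k) (hCA i j k) (hx j) (hy k)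
  have hintB : ∀ j k, Integrable (fun z => B z j k * w j z * star (w k z)) μ :=
    fun j k => int_amul (hBm j k) (hCB j k) (hw j) (hw k)
  have hq : ∀ (i : ℕ) (x y : Fin p → (Fin m → ℂ) → ℂ), (∀ q, MemLp (x q) 2 μ) →
      (∀ q, MemLp (y q) 2 μ) →
      Integrable (fun z => q (A i z) (fun q => x q z) (fun q => y q z)) μ := by
    intro i x y hx hy
    unfold q
    exact integrable_finsetSum _ fun j _ => integrable_finsetSum _ fun k _ => hint i x y hx hy j k
  have hqB : Integrable (fun z => q (B z) (fun q => w q z) (fun q => w q z)) μ := by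
    unfold q
    exact integrable_finsetSum _ fun j _ => integrable_finsetSum _ fun k _ => hintB j k
  have hqi : ∀ (i : ℕ) (x y : Fin p → (Fin m → ℂ) → ℂ), (∀ q, MemLp (x q) 2 μ) →
      (∀ q, MemLp (y q) 2 μ) → (∫ z, q (A i z) (fun q => x q z) (fun q => y q z) ∂μ)
        = ∑ j, ∑ k, ∫ z, A i z j k * x j z * star (y k z) ∂μ := by
    intro i x y hx hy
    unfold q
    rw [integral_finsetSum _ fun j _ => integrable_finsetSum _ fun k _ => hint i x y hx hy j k]
    refine Finset.sum_congr rfl fun j _ => ?_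
    rw [integral_finsetSum _ fun k _ => hint i x y hx hy j k]
  have hqiB : (∫ z, q (B z) (fun q => w q z) (fun q => w q z) ∂μ)
        = ∑ j, ∑ k, ∫ z, B z j k * w j z * star (w k z) ∂μ := by
    unfold q
    rw [integral_finsetSum _ fun j _ => integrable_finsetSum _ fun k _ => hintB j k]
    refine Finset.sum_congr rfl fun j _ => ?_
    rw [integral_finsetSum _ fun k _ => hintB j k]
  set J : ℂ := ∫ z, q (B z) (fun q => w q z) (fun q => w q z) ∂μ with hJ
  have l1 : Tendsto (fun i => ∫ z, q (A i z) (fun q => v i q z) (fun q => w q z) ∂μ) atTop (𝓝 J) := by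
    rw [hqiB]
    have : (fun i => ∫ z, q (A i z) (fun q => v i q z) (fun q => w q z) ∂μ)
        = fun i => ∑ j, ∑ k, ∫ z, A i z j k * v i j z * star (w k z) ∂μ :=
      funext fun i => hqi i (v i) w (hv i) hw
    rw [this]
    refine tendsto_finsetSum _ fun j _ => tendsto_finsetSum _ fun k _ => ?_
    exact lim1 (fun i => hAm i j k) (fun i => hCA i j k) (hBm j k) (hCB j k) (huu j k)
      (fun i => hv i j) (hw k) (fun i => hb i j) (fun φ hφ => hweak φ hφ j)
  have l2 : Tendsto (fun i => ∫ z, q (A i z) (fun q => w q z) (fun q => w q z) ∂μ) atTop (𝓝 J) := by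
    rw [hqiB]
    have : (fun i => ∫ z, q (A i z) (fun q => w q z) (fun q => w q z) ∂μ)
        = fun i => ∑ j, ∑ k, ∫ z, A i z j k * w j z * star (w k z) ∂μ :=
      funext fun i => hqi i w w hw hw
    rw [this]
    refine tendsto_finsetSum _ fun j _ => tendsto_finsetSum _ fun k _ => ?_
    exact lim1 (a := fun i z => A i z j k) (f := fun _ => w j) (fun i => hAm i j k)
      (fun i => hCA i j k) (hBm j k) (hCB j k) (huu j k)
      (fun i => hw j) (hw k) (fun i => le_rfl) (fun φ hφ => tendsto_const_nhds)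
  have hJe : ∫ z, hf (B z) (fun q => w q z) ∂μ = J.re := by
    rw [hJ, ← Complex.reCLM_apply, ← Complex.reCLM.integral_comp_comm hqB]
    rfl
  have hle : ∀ᶠ i in atTop, 2 * (∫ z, q (A i z) (fun q => v i q z) (fun q => w q z) ∂μ).re
      - (∫ z, q (A i z) (fun q => w q z) (fun q => w q z) ∂μ).re ≤ c := by
    filter_upwards [hc] with i hi
    refine le_trans ?_ hi
    have i1 := hq i (v i) (v i) (hv i) (hv i)
    have i2 := hq i (v i) w (hv i) hw
    have i3 := hq i w w hw hw
    have e1 : ∫ z, hf (A i z) (fun q => v i q z) ∂μ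
        = (∫ z, q (A i z) (fun q => v i q z) (fun q => v i q z) ∂μ).re := by
      rw [← Complex.reCLM_apply, ← Complex.reCLM.integral_comp_comm i1]; rfl
    have e0 : 0 ≤ ∫ z, hf (A i z) (fun q => v i q z - w q z) ∂μ := by
      refine integral_nonneg_of_ae ?_
      filter_upwards [haeK] with z hz
      exact (hA i z hz).2 _
    have e2 : ∫ z, hf (A i z) (fun q => v i q z - w q z) ∂μ
        = (∫ z, q (A i z) (fun q => v i q z) (fun q => v i q z) ∂μ).re
          - 2 * (∫ z, q (A i z) (fun q => v i q z) (fun q => w q z) ∂μ).re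
          + (∫ z, q (A i z) (fun q => w q z) (fun q => w q z) ∂μ).re := by
      have r1 := Complex.reCLM.integrable_comp i1
      have r2 := Complex.reCLM.integrable_comp i2
      have r3 := Complex.reCLM.integrable_comp i3
      have r12 : Integrable (fun a => Complex.reCLM (q (A i a) (fun q => v i q a) (fun q => v i q a)) -
          2 * Complex.reCLM (q (A i a) (fun q => v i q a) (fun q => w q a))) μ := r1.sub (r2.const_mul 2)
      rw [← Complex.reCLM_apply, ← Complex.reCLM.integral_comp_comm i1,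
        ← Complex.reCLM_apply, ← Complex.reCLM.integral_comp_comm i2,
        ← Complex.reCLM_apply, ← Complex.reCLM.integral_comp_comm i3,
        ← integral_const_mul, ← integral_sub r1 (r2.const_mul 2), ← integral_add r12 r3]
      refine integral_congr_ae ?_
      filter_upwards [haeK] with z hz
      simpa [hf_q] using hf_sub (A i z) (hA i z hz).1 (fun q => v i q z) (fun q => w q z)
    rw [e1]
    rw [e2] at e0
    linarith
  have hlim : Tendsto (fun i => 2 * (∫ z, q (A i z) (fun q => v i q z) (fun q => w q z) ∂μ).re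
      - (∫ z, q (A i z) (fun q => w q z) (fun q => w q z) ∂μ).re) atTop (𝓝 (2 * J.re - J.re)) := by
    have c1 := (Complex.continuous_re.tendsto J).comp l1
    have c2 := (Complex.continuous_re.tendsto J).comp l2
    exact (c1.const_mul 2).sub c2
  have := le_of_tendsto hlim hle
  rw [hJe]
  linarith

end Pool.Agent.Helper94.KP
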