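import Pool.Agent.Helper93.KP.St

/-!
# Project KP, module BLA: the quadrilinear form, one box
-/

set_option autoImplicit false

noncomputable section

namespace Pool.Agent.Helper94.KP

open Finset Filter Topology Pool.Agent.Helper93.KP
open Pool.Agent.Helper15.AB (ee Kl StDB StMT)
open Pool.Agent.Helper9.TW (iv bx Rg cc Dec WF bm ms ind UpP LoP gm Ax GUp GLo Qs fm ej)

private lemma sum4 (s₁ s₂ s₃ s₄ : Finset ℕ) (f g e : ℕ → ℕ → ℕ → ℕ → ℝ)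
    (h : ∀ m ∈ s₁, ∀ n ∈ s₂, ∀ x ∈ s₃, ∀ y ∈ s₄, |f m n x y - g m n x y| ≤ e m n x y) :
    |∑ m ∈ s₁, ∑ n ∈ s₂, ∑ x ∈ s₃, ∑ y ∈ s₄, f m n x y| ≤
      (∑ m ∈ s₁, ∑ n ∈ s₂, ∑ x ∈ s₃, ∑ y ∈ s₄, e m n x y) +
      |∑ m ∈ s₁, ∑ n ∈ s₂, ∑ x ∈ s₃, ∑ y ∈ s₄, g m n x y| := by
  have h1 : ∑ m ∈ s₁, ∑ n ∈ s₂, ∑ x ∈ s₃, ∑ y ∈ s₄, f m n x y =
      (∑ m ∈ s₁, ∑ n ∈ s₂, ∑ x ∈ s₃, ∑ y ∈ s₄, (f m n x y - g m n x y)) +
      ∑ m ∈ s₁, ∑ n ∈ s₂, ∑ x ∈ s₃, ∑ y ∈ s₄, g m n x y := by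
    simp only [sum_sub_distrib]
    ring
  rw [h1]
  refine (abs_add_le _ _).trans (add_le_add ?_ le_rfl)
  refine (abs_sum_le_sum_abs _ _).trans (sum_le_sum fun m hm => ?_)
  refine (abs_sum_le_sum_abs _ _).trans (sum_le_sum fun n hn => ?_)
  refine (abs_sum_le_sum_abs _ _).trans (sum_le_sum fun x hx => ?_)
  refine (abs_sum_le_sum_abs _ _).trans (sum_le_sum fun y hy => ?_)
  exact h m hm n hn x hx y hy

private lemma c_ne {k k' : ℕ} (h : k ≠ k') :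
    ((k' : ℤ) - k) * ((k : ℤ) * k' - 1) ≠ 0 := by
  have h1 : (k' : ℤ) - k ≠ 0 := fun h0 => h (by omega)
  have h2 : (k : ℤ) * k' - 1 ≠ 0 := by
    intro h0
    have h3 : (k : ℤ) * k' = 1 := by linarith
    have h4 : k * k' = 1 := by exact_mod_cast h3
    have h5 := Nat.eq_one_of_mul_eq_one_right h4
    have h6 := Nat.eq_one_of_mul_eq_one_left h4
    omega
  exact mul_ne_zero h1 h2

theorem hBLA (hE : StEDV) (hX : StBXV) : StBLA := by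
  intro ε hε
  obtain ⟨C, hC, hX⟩ := hX ε hε
  refine ⟨C, hC, ?_⟩
  intro a d ν k k' M₁ M₂ U₁ U₂ A U' η μ₁ μ₂ W al be al' be' ha hd hν hk hka hk' hk'a hkk hη hη1
    hμ₁ hμ₂ hM hU hA hU' hm hn hW hM₂ hAU hUW hal hbe hal' hbe'
  have hP : 0 < μ₁ * μ₂ := mul_pos hμ₁ hμ₂
  obtain ⟨E₁, E₂, hE12, hEle, hq⟩ := hE a d ν k k' η (μ₁ * μ₂) ha hd hν hk hka hk' hk'a hη hη1 hP
  have hc0 := c_ne hkk
  have hkd : 1 ≤ k * d := Nat.mul_pos hk hd
  have hbox := hX (k * d) k' M₁ M₂ A U₂ U' E₁ E₂ (((k' : ℤ) - k) * ((k : ℤ) * k' - 1))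
    ((k : ℤ) * ν - (k : ℤ) ^ 2 - 1) W al (fun n => if U₁ < n then be n else 0) al' be' hkd hk' hc0 hM
    hA hU hU' hE12 hW hM₂ hAU hUW hal
    (fun n => by
      by_cases h : U₁ < n
      · rw [if_pos h]; exact hbe n
      · rw [if_neg h]; simp) hal' hbe'
  have hsum : ∀ m, ∑ n ∈ Icc 1 U₂, ∑ x ∈ Ioc (A / 2) A, ∑ y ∈ Ioc (U' / 2) U',
      cd (k * d) k' m n x y * (al m * (if U₁ < n then be n else 0) * al' x * be' y) *
      ((((Ioc E₁ E₂).filter (fun e : ℕ => ((k * d : ℕ) : ℤ) ∣ ((m * n : ℕ) : ℤ) * e -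
        ((k : ℤ) * ν - (k : ℤ) ^ 2 - 1) ∧
        ((x * y : ℕ) : ℤ) ∣ (k' : ℤ) * ((m * n : ℕ) : ℤ) * e -
          (((k' : ℤ) - k) * ((k : ℤ) * k' - 1)))).card : ℝ) -
        ((E₂ : ℝ) - E₁) / (((k * d : ℕ) : ℝ) * (x * y : ℕ))) =
      ∑ n ∈ Ioc U₁ U₂, ∑ x ∈ Ioc (A / 2) A, ∑ y ∈ Ioc (U' / 2) U',
      cd (k * d) k' m n x y * (al m * be n * al' x * be' y) *
      ((((Ioc E₁ E₂).filter (fun e : ℕ => ((k * d : ℕ) : ℤ) ∣ ((m * n : ℕ) : ℤ) * e -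
        ((k : ℤ) * ν - (k : ℤ) ^ 2 - 1) ∧
        ((x * y : ℕ) : ℤ) ∣ (k' : ℤ) * ((m * n : ℕ) : ℤ) * e -
          (((k' : ℤ) - k) * ((k : ℤ) * k' - 1)))).card : ℝ) -
        ((E₂ : ℝ) - E₁) / (((k * d : ℕ) : ℝ) * (x * y : ℕ))) := by
    intro m
    symm
    rw [← sum_subset (s₁ := Ioc U₁ U₂) (s₂ := Icc 1 U₂)]
    · refine sum_congr rfl fun n hn => ?_
      rw [if_pos (mem_Ioc.1 hn).1]
    · intro n hn
      rw [mem_Ioc] at hn
      rw [mem_Icc]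
      omega
    · intro n hn hn'
      rw [mem_Ioc] at hn'
      rw [mem_Icc] at hn
      have h0 : ¬ U₁ < n := fun h => hn' ⟨h, hn.2⟩
      simp only [if_neg h0, mul_zero, zero_mul, sum_const_zero]
  simp only [hsum] at hbox
  have hcabs : |((((k' : ℤ) - k) * ((k : ℤ) * k' - 1) : ℤ) : ℝ)| =
      |((k' : ℝ) - k) * ((k : ℝ) * k' - 1)| := by
    push_cast
    rfl
  rw [hcabs] at hbox
  refine (sum4 _ _ _ _ _ (fun m n x y => cd (k * d) k' m n x y *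
    (al m * be n * al' x * be' y) *
      ((((Ioc E₁ E₂).filter (fun e : ℕ => ((k * d : ℕ) : ℤ) ∣ ((m * n : ℕ) : ℤ) * e -
        ((k : ℤ) * ν - (k : ℤ) ^ 2 - 1) ∧
        ((x * y : ℕ) : ℤ) ∣ (k' : ℤ) * ((m * n : ℕ) : ℤ) * e -
          (((k' : ℤ) - k) * ((k : ℤ) * k' - 1)))).card : ℝ) -
        ((E₂ : ℝ) - E₁) / (((k * d : ℕ) : ℝ) * (x * y : ℕ)))) _ ?_).trans
    (add_le_add le_rfl (hbox.trans ?_))
  · intro m hm' n hn' x hx y hy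
    have hx1 : 1 ≤ x := by have := (mem_Ioc.1 hx).1; omega
    have hy1 : 1 ≤ y := by have := (mem_Ioc.1 hy).1; omega
    have hkd' : (0 : ℝ) < ((k * d : ℕ) : ℝ) := by exact_mod_cast hkd
    have hxy : (0 : ℝ) < ((x * y : ℕ) : ℝ) := by exact_mod_cast Nat.mul_pos hx1 hy1
    by_cases hcd : Nat.Coprime (m * n) (k * d) ∧ Squarefree (x * y) ∧
        Nat.Coprime (x * y) (k * d * k' * (m * n))
    · have hcd1 : cd (k * d) k' m n x y = 1 := by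
        unfold cd
        rw [if_pos hcd]
      obtain ⟨ha1, ha2⟩ := hm m hm'
      obtain ⟨hb1, hb2⟩ := hn n hn'
      have hm0 : (0 : ℝ) < m := hμ₁.trans ha1
      have hq1 : μ₁ * μ₂ < ((m * n : ℕ) : ℝ) := by
        push_cast
        exact mul_lt_mul'' ha1 hb1 hμ₁.le hμ₂.le
      have hq2 : ((m * n : ℕ) : ℝ) ≤ (1 + η) ^ 2 * (μ₁ * μ₂) := by
        push_cast
        calc (m : ℝ) * n ≤ ((1 + η) * μ₁) * ((1 + η) * μ₂) :=
              mul_le_mul ha2 hb2 (hμ₂.trans hb1).le (hm0.le.trans ha2)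
          _ = _ := by ring
      have hck : Nat.Coprime (x * y) k :=
        Nat.Coprime.coprime_dvd_right ⟨d * k' * (m * n), by ring⟩ hcd.2.2
      obtain ⟨h1, h2⟩ := hq (m * n) (x * y) hq1 hq2 hcd.1 (Nat.mul_pos hx1 hy1) hck
      rw [hcd1, one_mul]
      have hco : |al m * be n * al' x * be' y| ≤ 1 := by
        rw [abs_mul, abs_mul, abs_mul]
        have h3 : |al m| * |be n| ≤ 1 := mul_le_one₀ (hal m) (abs_nonneg _) (hbe n)
        have h4 : |al m| * |be n| * |al' x| ≤ 1 := mul_le_one₀ h3 (abs_nonneg _) (hal' x)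
        exact mul_le_one₀ h4 (abs_nonneg _) (hbe' y)
      rw [← mul_sub, abs_mul]
      refine (mul_le_of_le_one_left (abs_nonneg _) hco).trans ?_
      have h5 : ∀ p q r s : ℝ, (p - q) - (r - s) = (p - r) + (s - q) := fun p q r s => by ring
      rw [h5]
      refine (abs_add_le _ _).trans (add_le_add h1 h2)
    · have hcd0 : cd (k * d) k' m n x y = 0 := by
        unfold cd
        rw [if_neg hcd]
      rw [hcd0]
      simp only [zero_mul, sub_zero, abs_zero]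
      positivity
  · have h6 : √((A : ℝ) * U₂ * ((E₂ : ℝ) - E₁)) ≤
        √((A : ℝ) * U₂ * (4 * k * (a : ℝ) ^ 2 / (μ₁ * μ₂))) :=
      Real.sqrt_le_sqrt (mul_le_mul_of_nonneg_left hEle (by positivity))
    have hM' : (0 : ℝ) ≤ (M₂ : ℝ) - M₁ + 1 := by
      have : (M₁ : ℝ) ≤ M₂ := by exact_mod_cast hM
      linarith
    have hW0 : (0 : ℝ) < W := by linarith
    refine mul_le_mul_of_nonneg_left ?_ (by positivity)
    have h7 := mul_le_mul_of_nonneg_left h6 hM'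
    linarith

end Pool.Agent.Helper94.KP
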